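import Pool.Agent.H239.CS.Main

/-!
# The normalised Kauffman bracket of arbitrary and of composite shadows

The definitions of the starting library (`Pool.Agent.H832R2.JR.Defs`): `GaussWord N` (the shadow of a
knot diagram with `N` crossings, given by the order in which the crossings are passed), `fPoly G w`
(the normalised Kauffman bracket, a state sum over all `2^N` states, of the diagram with shadow `G`
and crossing signs `w`), `Crosses G i j` (the chords of the crossings `i` and `j` cross),
`IsMatching` (pairwise disjoint pairs of crossing chords) and `classes G` (the number of different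
nonempty sets `{j | Crosses G i j}`).

New definitions: `mix p x w₀` (the crossings with property `p` have the signs `x`, the other crossings
have the signs `w₀`), `Width s f` (`f = T^n g(T)` with an integral polynomial `g` of degree at most `s`,
that is, the exponents of `f` are in an interval of length `s`) and
`beta m = min (3/4) ((32/m)^(1/4))`.

Proof.  The second moment of the bracket is a constant minus `12` times the sum of `w_i w_j` over all
ordered pairs of crossing chords, and the quadratic Littlewood-Offord inequality holds also if only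
some of the signs are random.  The number of curves of a state is one plus the nullity of the
interlacement matrix over `𝔽₂` (with ones on the diagonal for the unoriented smoothings), and hence the
bracket of a composite shadow is a product, where no factor needs to be the bracket of a diagram.  If
one factor is a unit for two choices of its crossings, then, the other crossings being fixed, the two
brackets differ by a unit, and the moments of order zero and one show that they are equal.
-/

set_option autoImplicit false

namespace Pool.Agent.Results.MP_42db45_gt.ArbitraryShadows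

open Pool.Agent.H832R2.JR Pool.Agent.H239.CS LaurentPolynomial

/-- Let `G` be the Gauss word of a knot shadow with `N` crossings (planar or not).

* Let the crossings without the property `p` be fixed and let the crossings with the property `p` be
  chosen arbitrarily. If there are `m` pairwise disjoint pairs of crossing chords with the property
  `p`, then the proportion of the choices with normalised Kauffman bracket `F` is at most
  `2.4 m^(-1/4)`, for every Laurent polynomial `F` (for instance `F = 1`).
* If `t` is the number of classes of chords which cross some chord (two chords being in one class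
  if they cross the same chords), then at most `4.3 t^(-1/4) 2^N` of the `2^N` choices of the
  crossings give a diagram with normalised Kauffman bracket `F`.
* Let the crossings be coloured such that crossing chords have the same colour (composite shadow), and
  let `C` be a set of colours such that the colour `a ∈ C` contains `μ a ≥ 1` pairwise disjoint pairs
  of crossing chords. Then at most `2^N ∏_{a ∈ C} min (3/4) ((32/μ a)^(1/4))` of the `2^N` choices of
  the crossings give a diagram with normalised Kauffman bracket `± A^n`, in particular with normalised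
  Kauffman bracket `1`; and for every `s` at most
  `2^N ∑_{S ⊆ C, |S| ≤ s} ∏_{a ∈ C \ S} min (3/4) ((32/μ a)^(1/4))` of them give a diagram whose
  normalised Kauffman bracket has its exponents in an interval of length `s`. -/
theorem result (N : ℕ) (G : GaussWord N) :
    (∀ (p : Fin N → Prop) [DecidablePred p] (w₀ : Fin N → Bool) (F : ℤ[T;T⁻¹]) (m : ℕ)
      (u v : Fin m → Fin N), IsMatching G u v → (∀ k, p (u k) ∧ p (v k)) →
      (Nat.card {x : Fin N → Bool // fPoly G (mix p x w₀) = F} : ℝ) * (m : ℝ) ^ (1 / 4 : ℝ) ≤
        2.4 * 2 ^ N) ∧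
    (∀ F : ℤ[T;T⁻¹], (Nat.card {w : Fin N → Bool // fPoly G w = F} : ℝ) *
      (classes G : ℝ) ^ (1 / 4 : ℝ) ≤ 4.3 * 2 ^ N) ∧
    ∀ κ : Fin N → ℕ, (∀ i j, Crosses G i j → κ i = κ j) → ∀ (C : Finset ℕ) (μ : ℕ → ℕ),
      (∀ a ∈ C, 1 ≤ μ a ∧ ∃ u v : Fin (μ a) → Fin N, IsMatching G u v ∧
        ∀ k, κ (u k) = a ∧ κ (v k) = a) →
      (Nat.card {w : Fin N → Bool // ∃ n : ℤ, fPoly G w = T n ∨ fPoly G w = -T n} : ℝ) ≤
        2 ^ N * ∏ a ∈ C, beta (μ a) ∧
      ∀ s : ℕ, (Nat.card {w : Fin N → Bool // Width s (fPoly G w)} : ℝ) ≤
        2 ^ N * ∑ S ∈ C.powerset.filter (fun S => S.card ≤ s), ∏ a ∈ C \ S, beta (μ a) := by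
  classical
  have h1 : ∀ (p : Fin N → Prop) [DecidablePred p] (w₀ : Fin N → Bool) (F : ℤ[T;T⁻¹]) (m : ℕ)
      (u v : Fin m → Fin N), IsMatching G u v → (∀ k, p (u k) ∧ p (v k)) →
      (Nat.card {x : Fin N → Bool // fPoly G (mix p x w₀) = F} : ℝ) * (m : ℝ) ^ (1 / 4 : ℝ) ≤
        2.4 * 2 ^ N := by
    intro p _ w₀ F m u v huv hp
    have h2 := fixed_bound G p w₀ u v huv hp (fun x => fPoly G (mix p x w₀) = F)
      (fun x y hx hy => hx.trans hy.symm)
    rw [Nat.card_eq_fintype_card, Fintype.card_subtype]
    refine (root_bound (M := 2 ^ N) (by positivity) (by exact_mod_cast h2)).trans ?_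
    gcongr
    calc (32 : ℝ) ^ (1 / 4 : ℝ) ≤ ((2.4 : ℝ) ^ (4 : ℕ)) ^ (1 / 4 : ℝ) :=
          Real.rpow_le_rpow (by norm_num) (by norm_num) (by norm_num)
      _ = 2.4 := by
          rw [← Real.rpow_natCast, ← Real.rpow_mul (by norm_num)]
          norm_num
  refine ⟨h1, fun F => ?_, ?_⟩
  · obtain ⟨m, u, v, huv, hmax⟩ := exists_maximal G
    have h2 := h1 (fun _ => True) (fun _ => true) F m u v huv (fun _ => ⟨trivial, trivial⟩)
    have h2' : ∀ x : Fin N → Bool, mix (fun _ => True) x (fun _ => true) = x := by
      intro x
      funext i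
      unfold mix
      rw [if_pos trivial]
    simp only [h2'] at h2
    have h3 := classes_le G u v hmax
    have h4 : (classes G : ℝ) ^ (1 / 4 : ℝ) ≤ 1.78 * (m : ℝ) ^ (1 / 4 : ℝ) := by
      have h5 : (classes G : ℝ) ≤ 10 * (m : ℝ) := by exact_mod_cast h3
      calc (classes G : ℝ) ^ (1 / 4 : ℝ) ≤ (10 * (m : ℝ)) ^ (1 / 4 : ℝ) :=
            Real.rpow_le_rpow (by positivity) h5 (by norm_num)
        _ = 10 ^ (1 / 4 : ℝ) * (m : ℝ) ^ (1 / 4 : ℝ) :=
            Real.mul_rpow (by norm_num) (by positivity)
        _ ≤ 1.78 * (m : ℝ) ^ (1 / 4 : ℝ) := by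
            gcongr
            calc (10 : ℝ) ^ (1 / 4 : ℝ) ≤ ((1.78 : ℝ) ^ (4 : ℕ)) ^ (1 / 4 : ℝ) :=
                  Real.rpow_le_rpow (by norm_num) (by norm_num) (by norm_num)
              _ = 1.78 := by
                  rw [← Real.rpow_natCast, ← Real.rpow_mul (by norm_num)]
                  norm_num
    calc (Nat.card {w : Fin N → Bool // fPoly G w = F} : ℝ) * (classes G : ℝ) ^ (1 / 4 : ℝ)
        ≤ (Nat.card {w : Fin N → Bool // fPoly G w = F} : ℝ) * (1.78 * (m : ℝ) ^ (1 / 4 : ℝ)) := by
          gcongr
      _ = 1.78 * ((Nat.card {w : Fin N → Bool // fPoly G w = F} : ℝ) * (m : ℝ) ^ (1 / 4 : ℝ)) := by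
          ring
      _ ≤ 1.78 * (2.4 * 2 ^ N) := by gcongr
      _ ≤ 4.3 * 2 ^ N := by
          rw [← mul_assoc]
          gcongr
          norm_num
  · intro κ hκ C μ hμ
    have h2 : ∀ s : ℕ, (Nat.card {w : Fin N → Bool // Width s (fPoly G w)} : ℝ) ≤
        2 ^ N * ∑ S ∈ C.powerset.filter (fun S => S.card ≤ s), ∏ a ∈ C \ S, beta (μ a) := by
      intro s
      rw [Nat.card_eq_fintype_card, Fintype.card_subtype]
      exact width_bound G κ hκ C μ hμ s
    refine ⟨?_, h2⟩
    have h3 := h2 0
    have h4 : C.powerset.filter (fun S => S.card ≤ 0) = {∅} := by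
      ext S
      simp only [Finset.mem_filter, Finset.mem_powerset, nonpos_iff_eq_zero,
        Finset.card_eq_zero, Finset.mem_singleton]
      constructor
      · exact fun h => h.2
      · rintro rfl
        exact ⟨Finset.empty_subset _, rfl⟩
    rw [h4, Finset.sum_singleton, Finset.sdiff_empty] at h3
    refine le_trans ?_ h3
    rw [Nat.card_eq_fintype_card, Nat.card_eq_fintype_card, Fintype.card_subtype,
      Fintype.card_subtype]
    refine Nat.cast_le.2 (Finset.card_le_card fun w hw => ?_)
    rw [Finset.mem_filter] at hw ⊢
    refine ⟨hw.1, ?_⟩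
    obtain ⟨n, h | h⟩ := hw.2
    · exact ⟨n, 1, by simp, by rw [h]; simp⟩
    · exact ⟨n, -1, by simp, by rw [h]; simp⟩

end Pool.Agent.Results.MP_42db45_gt.ArbitraryShadows
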