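import Pool.Agent.H239.RG.Grid
import Pool.Agent.W902.RS.Exist

/-!
# The normalised Kauffman bracket of random grid diagrams, petal diagrams and stacked curves

Definitions of the starting library.  `Pool.Agent.H832R2.JR.Defs`: `GaussWord N` (the shadow of a
knot diagram with `N` crossings) and `fPoly G w` (the normalised Kauffman bracket of the knot diagram
with shadow `G` and crossing signs `w`).  `Pool.Agent.W642.RS.Defs`: `Stack N n` (the Gauss word, with
`N` crossings, of a closed curve which is divided into `n` consecutive arcs without self-crossings,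
any two of which cross at most once; the `sign` says which sign a crossing has if the arc of one of
its passages is the lower one), `D.f h` (the normalised bracket of the knot diagram in which the arc
`i` lies at the height `h i`, for a permutation `h` of the heights), `EdgesCross r i j`, `IsPolygon r D`
(the stack `D` describes the closed polygon with the vertices `r 0, …, r (n - 1)`, where `0, …, n - 1`
are points on a circle in their cyclic order).  `Pool.Agent.H832R3.VJ.Defs`: `moment 2 F` (the second
moment `∑ k² a_k` of the Laurent polynomial `F = ∑ a_k A^k`).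

A closed polygon with its `n` vertices on a circle and its `n` edges at different heights is an arc
presentation (the same thing as a grid diagram of size `n`); all knots have such diagrams.  If any
two non-neighbouring arcs of a stack cross (star-shaped curve), then its diagrams are the petal
diagrams with `n` petals; all knots have such diagrams, too.
-/

set_option autoImplicit false

namespace Pool.Agent.Results.MP_42db45_gt.RandomGridDiagrams

open Finset Pool.Agent.H832R2.JR Pool.Agent.H832R3.VJ LaurentPolynomial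
open Pool.Agent.W642.RS (Stack IsPolygon)

/-- Every closed polygon with vertices `r 0, …, r (n - 1)` on a circle is described by stacks, and
there is an absolute constant `C` such that the following holds.

* (random grid diagrams) Of the `(n!)²` arc presentations, given by a polygon `r` and an order `h` of
  the heights of its edges, at most `C n^(-1/4) (n!)²` have a normalised bracket equal to `F r`, for
  arbitrary Laurent polynomials `F r` which may depend on the polygon (for instance `F = 1`); and at
  most `C M n^(-1/4) (n!)²` have a bracket whose second moment is in `S r`, if the sets `S r` have at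
  most `M` elements.
* (random stackings) For every closed curve with `N` crossings which consists of `n` arcs any two of
  which cross at most once, at most `C M n^(5/4) N^(-3/4) n!` of the `n!` orders of the heights of the
  arcs give a bracket whose second moment is in a given set of `M` integers.
* (random petal diagrams) If moreover `n ≥ 4` and `N ≥ n (n - 3) / 2` (that is, any two
  non-neighbouring arcs cross), then at most `C n^(-1/4) n!` of the orders of the heights give the
  bracket `F`, for every Laurent polynomial `F` (for instance `F = 1`). -/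
theorem result :
    (∀ (n : ℕ) (r : Equiv.Perm (Fin n)), ∃ (N : ℕ) (D : Stack N n), IsPolygon r D) ∧
    ∃ C : ℝ, 0 < C ∧
      (∀ (n : ℕ) (N : Equiv.Perm (Fin n) → ℕ) (D : ∀ r : Equiv.Perm (Fin n), Stack (N r) n),
        (∀ r, IsPolygon r (D r)) →
        (∀ F : Equiv.Perm (Fin n) → ℤ[T;T⁻¹],
          (n : ℝ) ^ (1 / 4 : ℝ) * (Nat.card {x : Equiv.Perm (Fin n) × Equiv.Perm (Fin n) //
            (D x.1).f x.2 = F x.1} : ℝ) ≤ C * (n.factorial : ℝ) ^ 2) ∧
        (∀ (M : ℕ) (S : Equiv.Perm (Fin n) → Finset ℤ), (∀ r, (S r).card ≤ M) →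
          (n : ℝ) ^ (1 / 4 : ℝ) * (Nat.card {x : Equiv.Perm (Fin n) × Equiv.Perm (Fin n) //
            moment 2 ((D x.1).f x.2) ∈ S x.1} : ℝ) ≤ C * M * (n.factorial : ℝ) ^ 2)) ∧
      (∀ (N n : ℕ) (D : Stack N n) (S : Finset ℤ),
        (N : ℝ) ^ (3 / 4 : ℝ) *
          (Nat.card {h : Equiv.Perm (Fin n) // moment 2 (D.f h) ∈ S} : ℝ) ≤
            C * S.card * (n : ℝ) ^ (5 / 4 : ℝ) * (n.factorial : ℝ)) ∧
      (∀ (N n : ℕ) (D : Stack N n) (F : ℤ[T;T⁻¹]), 4 ≤ n → n * (n - 3) / 2 ≤ N →
        (n : ℝ) ^ (1 / 4 : ℝ) *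
          (Nat.card {h : Equiv.Perm (Fin n) // D.f h = F} : ℝ) ≤ C * (n.factorial : ℝ)) := by
  classical
  refine ⟨Pool.Agent.W902.RS.exist, ?_⟩
  obtain ⟨C1, hC1, h1⟩ := Pool.Agent.H239.RG.gridS
  obtain ⟨C2, hC2, h2⟩ := Pool.Agent.H239.RG.stackS
  refine ⟨C1 + 8 * C2, by positivity, ?_, ?_, ?_⟩
  · intro n N D hD
    have h3 : ∀ (M : ℕ) (S : Equiv.Perm (Fin n) → Finset ℤ), (∀ r, (S r).card ≤ M) →
          (n : ℝ) ^ (1 / 4 : ℝ) * (Nat.card {x : Equiv.Perm (Fin n) × Equiv.Perm (Fin n) //
            moment 2 ((D x.1).f x.2) ∈ S x.1} : ℝ) ≤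
            (C1 + 8 * C2) * M * (n.factorial : ℝ) ^ 2 := by
      intro M S hS
      rw [Nat.card_eq_fintype_card, Fintype.card_subtype]
      refine (h1 n N D hD M S hS).trans ?_
      gcongr
      linarith
    refine ⟨fun F => ?_, h3⟩
    have h4 := h3 1 (fun r => {moment 2 (F r)}) (fun r => by simp)
    rw [Nat.cast_one, mul_one] at h4
    refine le_trans ?_ h4
    gcongr
    rw [Nat.card_eq_fintype_card, Fintype.card_subtype, Nat.card_eq_fintype_card,
      Fintype.card_subtype]
    gcongr with x
    intro hx
    rw [hx]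
    simp
  · intro N n D S
    rw [Nat.card_eq_fintype_card, Fintype.card_subtype]
    refine (h2 N n D S).trans ?_
    gcongr
    linarith
  · intro N n D F hn hN
    have hn' : (4 : ℝ) ≤ n := by exact_mod_cast hn
    have hn0 : (0 : ℝ) < n := by linarith
    have h4 := h2 N n D {moment 2 F}
    rw [card_singleton, Nat.cast_one, mul_one] at h4
    have h5 : (Nat.card {h : Equiv.Perm (Fin n) // D.f h = F} : ℝ) ≤
        ((univ.filter fun h : Equiv.Perm (Fin n) =>
          moment 2 (D.f h) ∈ ({moment 2 F} : Finset ℤ)).card : ℝ) := by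
      rw [Nat.card_eq_fintype_card, Fintype.card_subtype]
      refine Nat.cast_le.2 ?_
      gcongr with x
      intro hx
      rw [hx]
      simp
    set X : ℝ := ((univ.filter fun h : Equiv.Perm (Fin n) =>
          moment 2 (D.f h) ∈ ({moment 2 F} : Finset ℤ)).card : ℝ) with hX
    have hX0 : 0 ≤ X := by positivity
    have hNn : (n : ℝ) ^ 2 ≤ 16 * (N : ℝ) := by
      have h6 : n * n ≤ 16 * N := by
        have h7 : n * n ≤ 4 * (n * (n - 3)) := by
          obtain ⟨k, rfl⟩ := Nat.exists_eq_add_of_le hn
          have : 4 + k - 3 = k + 1 := by omega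
          rw [this]
          nlinarith
        have h8 : 4 ≤ n * (n - 3) := by
          obtain ⟨k, rfl⟩ := Nat.exists_eq_add_of_le hn
          have : 4 + k - 3 = k + 1 := by omega
          rw [this]
          nlinarith
        generalize n * (n - 3) = y at *
        omega
      have : ((n * n : ℕ) : ℝ) ≤ ((16 * N : ℕ) : ℝ) := by exact_mod_cast h6
      push_cast at this
      nlinarith
    have h9 : (n : ℝ) ^ (3 / 2 : ℝ) ≤ 8 * (N : ℝ) ^ (3 / 4 : ℝ) := by
      calc (n : ℝ) ^ (3 / 2 : ℝ) = ((n : ℝ) ^ (2 : ℕ)) ^ (3 / 4 : ℝ) := by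
            rw [← Real.rpow_natCast, ← Real.rpow_mul hn0.le]; norm_num
        _ ≤ (16 * (N : ℝ)) ^ (3 / 4 : ℝ) := by gcongr
        _ = (16 : ℝ) ^ (3 / 4 : ℝ) * (N : ℝ) ^ (3 / 4 : ℝ) :=
            Real.mul_rpow (by norm_num) (by positivity)
        _ = 8 * (N : ℝ) ^ (3 / 4 : ℝ) := by
            congr 1
            rw [show (16 : ℝ) = 2 ^ (4 : ℕ) by norm_num, ← Real.rpow_natCast,
              ← Real.rpow_mul (by norm_num)]
            norm_num
    have h10 : (n : ℝ) ^ (5 / 4 : ℝ) * ((n : ℝ) ^ (1 / 4 : ℝ) * X) ≤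
        (n : ℝ) ^ (5 / 4 : ℝ) * (8 * C2 * (n.factorial : ℝ)) := by
      calc (n : ℝ) ^ (5 / 4 : ℝ) * ((n : ℝ) ^ (1 / 4 : ℝ) * X) = (n : ℝ) ^ (3 / 2 : ℝ) * X := by
            rw [← mul_assoc, ← Real.rpow_add hn0]; norm_num
        _ ≤ 8 * (N : ℝ) ^ (3 / 4 : ℝ) * X := by gcongr
        _ = 8 * ((N : ℝ) ^ (3 / 4 : ℝ) * X) := by ring
        _ ≤ 8 * (C2 * (n : ℝ) ^ (5 / 4 : ℝ) * (n.factorial : ℝ)) := by gcongr
        _ = _ := by ring
    have h11 := le_of_mul_le_mul_left h10 (by positivity)
    calc (n : ℝ) ^ (1 / 4 : ℝ) * (Nat.card {h : Equiv.Perm (Fin n) // D.f h = F} : ℝ) ≤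
        (n : ℝ) ^ (1 / 4 : ℝ) * X := by gcongr
      _ ≤ 8 * C2 * (n.factorial : ℝ) := h11
      _ ≤ _ := by
        gcongr
        linarith

end Pool.Agent.Results.MP_42db45_gt.RandomGridDiagrams
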