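import Pool.Agent.V11227.JonesGn6

/-!
# The Jones polynomials of the links obtained by inserting powers of a braid

Diagrams (starting library `Pool.Agent.H891R2.Jones.Diagram`): `Diagram P` (oriented link diagrams with
marked points `P`, planar or not), `Diagram.fPoly` (the normalised bracket `(-A^{-3})^{w(D)} ⟨D⟩`),
`Diagram.writhe`, `Diagram.IsClosed`, `Outer m` (the part of an oriented diagram outside a box through
which `m` strands run, with arbitrary directions `O.up`), `Outer.close` (fills the box with vertical
strands).  Starting library `Pool.Agent.W639.RB.Defs`: `Letter m` (the letters `σ_i^{±1}` of the braid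
group on `m` strands).

Definitions of the starting library (`Pool.Agent.Y463.SK.Defs`, `Pool.Agent.Y463.RW.Defs`) for words
(lists of letters): `permW w` (the permutation of the strands), `powW w n` (the power `w^n`, `n ∈ ℤ`),
`IsPure w` (`permW w = 1`), `dia O w` (the diagram obtained by drawing `w` in the box of `O` and filling
the rest of the box with vertical strands), `multiW w v n = w_1^{n_1} v_1 w_2^{n_2} v_2 ⋯ w_k^{n_k} v_k`,
`prodW w u` (the product `w_{i_1}^{±1} ⋯ w_{i_n}^{±1}` given by the sequence `u` of `n` pairs `(i, ±)`).

Definitions of `Pool.Agent.V11227`: `JL.cr w a b` (`JonesLk2`): the number of the letters `σ_i` minus the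
number of the letters `σ_i⁻¹` of `w` at which the strands cross that start at the places `a` and `b`;
for a pure word this is twice the linking number of these strands if they have the same direction, and
minus twice the linking number otherwise.  `GN.Pr m` (`JonesGn3`): the pairs `a < b` of strands;
`GN.IsLk w l` (`JonesGn5`): `cr w a b = 2 l_{ab}` for all `a < b` (`l` is the matrix of the linking
numbers of `w` if all strands run upwards).  `JL.LinkedAt O u w` (`JonesLk8`):
`∑_{a,b} |cr w a b| < |∑_{a,b} c_{a,b} cr w a b|`, where `c_{a,b} = 2` if the strands `a` and `b` (of the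
box, after the braid `u`) have the same direction and `c_{a,b} = -1` otherwise; `JL.Linked O w`
(`JonesLk7`): the same condition for the empty word `u`.  `JP.positive w`, `JP.negative w`
(`JonesPos3`): the numbers of the letters `σ_i` and `σ_i⁻¹` of `w`.  `JP.Mostly O u w r`
(`JonesPos3`): three times the contribution `c` of `w^r` to the writhe of the diagram `dia O (u w^r)` is
larger than `r (positive w + 3 negative w)`, or `-3 c` is larger than `r (negative w + 3 positive w)`.

Outline.  By the starting library (`Y463.SK.Gen`), either all the members of such a family, for the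
exponents in one residue class modulo `r`, have the same polynomial `F`, or at most `m!` of them.  The
first alternative is impossible if a certain element of the integral group ring of the symmetric group,
namely `∑_{a<b} l_{ab} (c_{ab} + (a b))`, is not a zero divisor: the operator of the pure braid in the
Temperley-Lieb algebra, multiplied by the writhe factor, is `1 + (A + 1) b`, and modulo `A + 1` the
operator `b` is a multiple of this element.  This is so if the coefficient of `1` dominates the other
ones (`LinkedAt`), or if a determinant, a homogeneous polynomial of degree `m!` in the `l_{ab}`, is not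
zero.  It is not the zero polynomial: among three strands two have the same direction, and for their
full twist the element is `2 + (a b)`, a divisor of `3`.  So the exceptional matrices are rare by the
Schwartz-Zippel lemma.
-/

set_option autoImplicit false

namespace Pool.Agent.Results.MP_42db45_gt.RegularLinkingPowers

open Finset LaurentPolynomial Pool.Agent.H891R2.Jones Pool.Agent.W639.RB Pool.Agent.Y463.SK
  Pool.Agent.Y463.RW Pool.Agent.V11227.JP Pool.Agent.V11227.JL Pool.Agent.V11227.GN

open Classical in
/-- **Powers of braids with almost arbitrary linking numbers.**  Let `m ≥ 1`.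

(1) There is a set `B` of integral matrices `(l_{ab})`, `a < b`, with the properties (2) and (3), which
contains at most `2^m m! (2N+1)^(C(m,2)-1)` of the `(2N+1)^C(m,2)` matrices with entries in `[-N, N]`,
for every `N`, if `m ≥ 3`.  Every matrix is the linking matrix of a pure braid word, and every pure braid
word has a linking matrix.

(2) Let `O` be the part of an oriented link diagram outside a box through which `m` strands run, with
arbitrary directions, let `u, w, v` be braid words on `m` strands and `r ≥ 1` such that `w^r` is pure and
its linking matrix is not in `B` or satisfies the linking condition `LinkedAt O u (w^r)`.  Let `D(n)`,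
`n ∈ ℤ`, be the diagram with the braid `u w^n v` in the box.  Then every Laurent polynomial `F`, for
instance `F = 1`, is the normalised bracket (the Jones polynomial) of at most `r m!` of the diagrams
`D(n)`; and among any `Z` of them there are at least `Z / (r m!)` different Jones polynomials.

(3) Let `w_1, …, w_k` and `v_1, …, v_k` be words and `r_1, …, r_k ≥ 0`, and suppose that for one `i` the
word `w_i^{r_i}` is pure and its linking matrix is not in `B`, or that all strands run upwards and
`Linked O (w_i^{r_i})` holds.  For `s, q ∈ ℤ^k` let `D(q)` be the diagram with the braid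
`w_1^{n_1} v_1 ⋯ w_k^{n_k} v_k`, `n_j = r_j q_j + s_j`, in the box of `O`.  Then for all finite sets
`A_1, …, A_k` of integers and every `F` at most `m! ∏_{j ≠ i} |A_j|` of the `∏_j |A_j|` diagrams `D(q)`,
`q ∈ A_1 × ⋯ × A_k`, have the Jones polynomial `F`.

(4) The linking condition `LinkedAt O u w` holds for every word `w` (with arbitrary directions) such
that all the linking numbers `± cr w a b` (the sign is `+` for strands with the same direction, `-`
otherwise) have the same sign `ε` or are zero and two strands with the same direction have a nonzero
linking number.  It holds for `w^r` if `r > 0`, all strands run upwards and `w` has more than three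
times as many positive as negative letters or the other way round, and, for arbitrary directions, if
`Mostly O u w r` holds.

(5) If `O`, with vertical strands in the box, is a diagram of a link and the permutation of a word `x`
preserves the directions of the strands, then `dia O x` is a diagram of a link. -/
theorem result (m : ℕ) (hm : 0 < m) : ∃ B : Set (Pr m → ℤ),
    (3 ≤ m → ∀ N : ℕ, {l : Pr m → ℤ | l ∈ B ∧ ∀ p, |l p| ≤ N}.Finite ∧
      {l : Pr m → ℤ | l ∈ B ∧ ∀ p, |l p| ≤ N}.ncard ≤
        2 ^ m * m.factorial * (2 * N + 1) ^ (m.choose 2 - 1)) ∧
    Fintype.card (Pr m) = m.choose 2 ∧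
    (∀ l : Pr m → ℤ, ∃ w : List (Letter m), IsPure w ∧ IsLk w l) ∧
    (∀ w : List (Letter m), IsPure w → ∃ l : Pr m → ℤ, IsLk w l) ∧
    ∀ O : Outer m,
      (∀ (u w v : List (Letter m)) (r : ℕ), 0 < r → IsPure (powW w r) →
        ((∃ l, l ∉ B ∧ IsLk (powW w r) l) ∨ LinkedAt O u (powW w r)) →
        (∀ F : ℤ[T;T⁻¹], {n : ℤ | (dia O (u ++ (powW w n ++ v))).fPoly = F}.Finite ∧
          {n : ℤ | (dia O (u ++ (powW w n ++ v))).fPoly = F}.ncard ≤ r * m.factorial) ∧
        (∀ Z : Finset ℤ, Z.card ≤
          r * m.factorial * (Z.image fun n => (dia O (u ++ (powW w n ++ v))).fPoly).card)) ∧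
      (∀ (k : ℕ) (w v : Fin k → List (Letter m)) (r : Fin k → ℕ) (i : Fin k),
        IsPure (powW (w i) (r i)) →
        ((∃ l, l ∉ B ∧ IsLk (powW (w i) (r i)) l) ∨
          (∀ j, O.up j = true) ∧ Linked O (powW (w i) (r i))) →
        ∀ (s : Fin k → ℤ) (F : ℤ[T;T⁻¹]) (A : Fin k → Finset ℤ),
          ((Fintype.piFinset A).filter
            (fun q => (dia O (multiW w v (fun i => r i * q i + s i))).fPoly = F)).card ≤
              m.factorial * ∏ j ∈ univ.erase i, (A j).card) ∧
      ((∀ (u w : List (Letter m)) (ε : ℤ), ε = 1 ∨ ε = -1 →
          (∀ a b, 0 ≤ ε * ((if O.up (permW u a) = O.up (permW u b) then 1 else -1) * cr w a b)) →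
          (∃ a b, O.up (permW u a) = O.up (permW u b) ∧ cr w a b ≠ 0) → LinkedAt O u w) ∧
        (∀ (u w : List (Letter m)) (r : ℕ), 0 < r → (∀ j, O.up j = true) →
          (3 * negative w < positive w ∨ 3 * positive w < negative w) → LinkedAt O u (powW w r)) ∧
        (∀ (u w : List (Letter m)) (r : ℕ), Mostly O u w r → LinkedAt O u (powW w r)) ∧
        ∀ w : List (Letter m), LinkedAt O [] w ↔ Linked O w) ∧
      (O.close.IsClosed → ∀ x : List (Letter m), (∀ j, O.up (permW x j) = O.up j) →
        (dia O x).IsClosed) := by
  refine ⟨Exc m, exc_count m, card_pr, fun l => exists_matrix l, fun w hw => exists_lk w hw,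
    fun O => ⟨fun u w v r hr hp h => ?_, fun k w v r i hp h s F A => ?_,
    ⟨fun u w ε hε h h' => linkedAt_of_sign O u w ε hε h h', fun u w r hr hO h =>
      linkedAt_of_letters O (fun i j => by rw [hO i, hO j]) u w r hr h, fun u w r h =>
      linkedAt_of_mostly O u w r h, fun w => linkedAt_nil O w⟩,
    fun hO x hx => dia_closed O hO x hx⟩⟩
  · have hN : NoAll (draw O (toN u)) (toN (powW w r)) := by
      rcases h with h | h
      · exact noAll_exc _ _ hp h
      · exact noAll_of_linked hm _ _ hp ((linkedAt_iff O u _).1 h)
    exact ⟨fun F => na_one hm O u w v r hr hp hN F, fun Z => na_image hm O u w v r hr hp hN Z⟩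
  · refine na_multi hm O w v r i hp (fun pre => ?_) s F A
    rcases h with h | ⟨hO, h⟩
    · exact noAll_exc _ _ hp h
    · exact noAll_pre_of_linked hm O (fun i j => by rw [hO i, hO j]) _ hp h pre

end Pool.Agent.Results.MP_42db45_gt.RegularLinkingPowers
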