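import Pool.Agent.V11227.JonesGn6

/-!
# Random elements of groups of braids with almost arbitrary linking numbers

Diagrams (starting library `Pool.Agent.H891R2.Jones.Diagram`): `Diagram P` (oriented link diagrams with
marked points `P`, planar or not), `Diagram.fPoly` (the normalised bracket `(-A^{-3})^{w(D)} ⟨D⟩`),
`Diagram.writhe`, `Diagram.IsClosed`, `Outer m` (the part of an oriented diagram outside a box through
which `m` strands run, with arbitrary directions `O.up`), `Outer.close` (fills the box with vertical
strands).  Starting library `Pool.Agent.W639.RB.Defs`: `Letter m` (the letters `σ_i^{±1}` of the braid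
group on `m` strands).

Definitions of the starting library (`Pool.Agent.Y463.SK.Defs`, `Pool.Agent.Y463.RW.Defs`) for words
(lists of letters): `permW w` (the permutation of the strands), `powW w n` (the power `w^n`, `n ∈ ℤ`),
`IsPure w` (`permW w = 1`), `dia O w` (the diagram obtained by drawing `w` in the box of `O` and filling
the rest of the box with vertical strands), `multiW w v n = w_1^{n_1} v_1 w_2^{n_2} v_2 ⋯ w_k^{n_k} v_k`,
`prodW w u` (the product `w_{i_1}^{±1} ⋯ w_{i_n}^{±1}` given by the sequence `u` of `n` pairs `(i, ±)`).

Definitions of `Pool.Agent.V11227`: `JL.cr w a b` (`JonesLk2`): the number of the letters `σ_i` minus the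
number of the letters `σ_i⁻¹` of `w` at which the strands cross that start at the places `a` and `b`;
for a pure word this is twice the linking number of these strands if they have the same direction, and
minus twice the linking number otherwise.  `GN.Pr m` (`JonesGn3`): the pairs `a < b` of strands;
`GN.IsLk w l` (`JonesGn5`): `cr w a b = 2 l_{ab}` for all `a < b` (`l` is the matrix of the linking
numbers of `w` if all strands run upwards).  `JL.LinkedAt O u w` (`JonesLk8`):
`∑_{a,b} |cr w a b| < |∑_{a,b} c_{a,b} cr w a b|`, where `c_{a,b} = 2` if the strands `a` and `b` (of the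
box, after the braid `u`) have the same direction and `c_{a,b} = -1` otherwise; `JL.Linked O w`
(`JonesLk7`): the same condition for the empty word `u`.  `JP.positive w`, `JP.negative w`
(`JonesPos3`): the numbers of the letters `σ_i` and `σ_i⁻¹` of `w`.  `JP.Mostly O u w r`
(`JonesPos3`): three times the contribution `c` of `w^r` to the writhe of the diagram `dia O (u w^r)` is
larger than `r (positive w + 3 negative w)`, or `-3 c` is larger than `r (negative w + 3 positive w)`.
-/

set_option autoImplicit false

namespace Pool.Agent.Results.MP_42db45_gt.RegularLinkingSubgroups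

open Finset LaurentPolynomial Pool.Agent.H891R2.Jones Pool.Agent.W639.RB Pool.Agent.Y463.SK
  Pool.Agent.Y463.RW Pool.Agent.V11227.JP Pool.Agent.V11227.JL Pool.Agent.V11227.GN

open Classical in
/-- **Random elements of groups of braids.**  For every `m ≥ 1` there is a set `B` of integral matrices
`(l_{ab})`, `a < b`, which contains at most `2^m m! (2N+1)^(C(m,2)-1)` of the `(2N+1)^C(m,2)` matrices
with entries in `[-N, N]`, for every `N`, if `m ≥ 3`, such that for every `s ≥ 1` there is a constant `C`
with the following property.  (Every matrix is the linking matrix of a pure braid word, and every pure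
braid word has a linking matrix.)

Let `O` be any oriented link diagram with an open box through which `m` strands run, with arbitrary
directions, and let `w_1, …, w_s` be braid words on `m` strands such that for some product `g` of the
words `w_i^{±1}` and some `r ≥ 0` the word `g^r` is pure and one of the following conditions is
satisfied:

* the linking matrix of `g^r` is not in `B`, or
* the linking condition `Linked O (g^r)` holds, for instance (`ε = ± 1`) all the linking numbers of the
  strands of `g^r` have the same sign or are zero, and two strands with the same direction have a nonzero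
  linking number, or
* all strands of the box run upwards, `r ≥ 1` and `g` has more than three times as many positive as
  negative letters or the other way round (for instance, `g` is a nonempty positive word), or
* `Mostly O [] g r` holds.

Then for every braid word `v`, every Laurent polynomial `F` (for instance `1`, the polynomial of the
unknot) and all `n ≥ 1`, at most `C n^{-c} (2 s)^n` of the `(2 s)^n` products
`u = w_{i_1}^{±1} ⋯ w_{i_n}^{±1}` give a diagram, with the braid `u v` in the box, whose Jones
polynomial is `F`, where `c = 1 / (3 · 2^(m! 2^m + 2))`.  (If the diagram `O`, with vertical strands in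
the box, is a diagram of a link and the permutations of the words `w_i` and of `v` preserve the directions
of the strands, then all these diagrams are diagrams of links.) -/
theorem result (m : ℕ) (hm : 0 < m) : ∃ B : Set (Pr m → ℤ),
    (3 ≤ m → ∀ N : ℕ, {l : Pr m → ℤ | l ∈ B ∧ ∀ p, |l p| ≤ N}.Finite ∧
      {l : Pr m → ℤ | l ∈ B ∧ ∀ p, |l p| ≤ N}.ncard ≤
        2 ^ m * m.factorial * (2 * N + 1) ^ (m.choose 2 - 1)) ∧
    Fintype.card (Pr m) = m.choose 2 ∧
    (∀ l : Pr m → ℤ, ∃ w : List (Letter m), IsPure w ∧ IsLk w l) ∧
    (∀ w : List (Letter m), IsPure w → ∃ l : Pr m → ℤ, IsLk w l) ∧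
    ∀ s : ℕ, 0 < s → ∃ C : ℝ, 0 < C ∧ ∀ (O : Outer m) (w : Fin s → List (Letter m)),
      (∃ (k : ℕ) (a : Fin k → Fin s × Bool) (r : ℕ), IsPure (powW (prodW w a) r) ∧
        ((∃ l, l ∉ B ∧ IsLk (powW (prodW w a) r) l) ∨
        Linked O (powW (prodW w a) r) ∨
        (∃ ε : ℤ, (ε = 1 ∨ ε = -1) ∧
          (∀ i j, 0 ≤ ε * ((if O.up i = O.up j then 1 else -1) * cr (powW (prodW w a) r) i j)) ∧
          ∃ i j, O.up i = O.up j ∧ cr (powW (prodW w a) r) i j ≠ 0) ∨
        ((∀ j, O.up j = true) ∧ 0 < r ∧ (3 * negative (prodW w a) < positive (prodW w a) ∨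
          3 * positive (prodW w a) < negative (prodW w a))) ∨
        Mostly O [] (prodW w a) r)) →
      (∀ (v : List (Letter m)) (F : ℤ[T;T⁻¹]) (n : ℕ), 0 < n →
        ((univ.filter (fun u : Fin n → Fin s × Bool =>
          (dia O (prodW w u ++ v)).fPoly = F)).card : ℝ) ≤
            C * (n : ℝ) ^ (-(1 / (3 * 2 ^ (m.factorial * 2 ^ m + 2))) : ℝ) * (2 * s : ℝ) ^ n) ∧
      (O.close.IsClosed → ∀ v : List (Letter m), (∀ i j, O.up (permW (w i) j) = O.up j) →
        (∀ j, O.up (permW v j) = O.up j) → ∀ (n : ℕ) (u : Fin n → Fin s × Bool),
          (dia O (prodW w u ++ v)).IsClosed) := by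
  refine ⟨Exc m, exc_count m, card_pr, fun l => exists_matrix l, fun w hw => exists_lk w hw,
    fun s hs => ⟨m.factorial * Cst (2 * s : ℝ) (dimB m + 1), mul_pos (by positivity)
    (lt_of_lt_of_le one_pos (Cst_ge _ _)), fun O w h => ⟨fun v F n hn => ?_, fun hO v hw hv n u =>
      dia_closed O hO _ fun j => dir_prod O w hw v hv u j⟩⟩⟩
  obtain ⟨k, a, r, hr, h⟩ := h
  have hN : NoAll O (toN (powW (prodW w a) r)) := by
    rcases h with h | h | ⟨ε, hε, h1, h2⟩ | ⟨hO, hr0, h⟩ | h
    · exact noAll_exc _ _ hr h
    · exact noAll_of_linked hm _ _ hr h
    · exact noAll_of_linked hm _ _ hr (linked_of_sign O _ ε hε h1 h2)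
    · exact noAll_of_linked hm _ _ hr
        (linked_of_letters O (fun i j => by rw [hO i, hO j]) _ r hr0 h)
    · exact noAll_of_linked hm _ _ hr (linkedAt_of_mostly O [] _ r h)
  exact na_random_all hm hs O w k a r hr hN v F n hn

end Pool.Agent.Results.MP_42db45_gt.RegularLinkingSubgroups
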